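import Pool.Agent.Work.MP_2738db_nt_A.Interface

/-!
The flagship for the Fermat-Catalan conjecture (MP_2738db): statements.
-/

set_option autoImplicit false

namespace Pool.Agent.Work.MP_2738db_nt_A

/-- **X0**: the sieve theorem in its general form: exponents `n`, `k` unbounded, `l` a prime exponent
of `a` with `log l ≤ (log N)^(1-ε)`, `k` with at most `exp ((log N)^(1-ε))` prime factors. -/
def Stmt_X0 : Prop :=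
  ∀ ε : ℝ, 0 < ε → ε < 1 → ∃ κ X₀ : ℝ, 0 < κ ∧ ∀ X N b g r : ℕ, X₀ ≤ X →
    Real.exp (Real.log (Real.log X) ^ (1 + ε)) ≤ N → 2 ≤ b → b ≤ X → 1 ≤ g → g * N + r ≤ X →
    ({x : ℕ | 1 ≤ x ∧ x ≤ N ∧ Nat.Coprime b (g * x + r) ∧ ∃ a l n k : ℕ, 1 ≤ a ∧ l.Prime ∧
        Real.log l ≤ (Real.log N) ^ (1 - ε) ∧ 1 ≤ n ∧ 1 ≤ k ∧
        (k.primeFactors.card : ℝ) ≤ Real.exp ((Real.log N) ^ (1 - ε)) ∧
        (a ^ l + b ^ n = (g * x + r) ^ k ∨ b ^ n + (g * x + r) ^ k = a ^ l ∨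
          (g * x + r) ^ k + a ^ l = b ^ n)}.ncard : ℝ) ≤ (N : ℝ) ^ (1 - κ)

/-- **F**: the flagship. -/
def Stmt_F : Prop :=
  ∀ ε : ℝ, 0 < ε → ε < 1 → ∃ κ X₀ : ℝ, 0 < κ ∧ ∀ X N b g r : ℕ, X₀ ≤ X →
    Real.exp (Real.log (Real.log X) ^ (1 + ε)) ≤ N → 2 ≤ b → b ≤ X → 1 ≤ g → g * N + r ≤ X →
    ({x : ℕ | 1 ≤ x ∧ x ≤ N ∧ Nat.Coprime b (g * x + r) ∧ ∃ a m n k : ℕ, 1 ≤ a ∧ 2 ≤ m ∧
        1 ≤ n ∧ 1 ≤ k ∧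
        ((∃ p : ℕ, p.Prime ∧ p ∣ m * b * (g * x + r) ∧ Real.log p ≤ (Real.log N) ^ (1 - ε)) ∨
          (Real.log n ≤ (Real.log X) ^ (1 / ε) ∧ Real.log k ≤ (Real.log X) ^ (1 / ε))) ∧
        (a ^ m + b ^ n = (g * x + r) ^ k ∨ b ^ n + (g * x + r) ^ k = a ^ m ∨
          (g * x + r) ^ k + a ^ m = b ^ n)}.ncard : ℝ) ≤ (N : ℝ) ^ (1 - κ)

end Pool.Agent.Work.MP_2738db_nt_A
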