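import Mathlib

/-!
Theorem W for the Fermat-Catalan conjecture (MP_2738db): effective bound for the exponents `n, k` in
`a ^ l = ± b ^ n ± c ^ k` (`l` prime, `a` free), by the two logarithms theorem over number fields and
one Minkowski pigeonhole.  Statements of the blocks; proofs: `BLUEPRINT.md`.
-/

set_option autoImplicit false

namespace Pool.Agent.Work.MP_2738db_nt_A

open Finset NumberField

/-- all absolute values of `x` at the infinite places are at most `exp h` -/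
def HB (K : Type) [Field K] [NumberField K] (x : 𝓞 K) (h : ℝ) : Prop :=
  ∀ v : InfinitePlace K, v (x : K) ≤ Real.exp h

/-! ### The two logarithms theorem over a number field -/

/-- `z ↦ choose z k * u ^ z` over a ring -/
def fz {R : Type} [CommRing R] (u : R) (k : ℕ) : ℕ → R := fun z => (Nat.choose z k : R) * u ^ z

/-- Newton coefficients -/
def nc {R : Type} [CommRing R] (u : R) (k m : ℕ) : R := (fwdDiff 1)^[m] (fz u k) 0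

/-- **VAL**: valuation of interpolation determinants over any commutative ring. -/
def Stmt_Val : Prop :=
  (∀ (R : Type) [CommRing R] (ι : Type) [Fintype ι] [DecidableEq ι] (p : R) (Z M V : ℕ) (k : ι → ℕ)
    (c : ι → ℕ → R) (B : ℕ → ι → R) (G : ι → ι → R),
    (∀ i m, p ^ (m - k i) ∣ c i m) → Fintype.card ι ≤ M →
    V + ∑ i, k i ≤ Fintype.card ι * (Fintype.card ι - 1) / 2 →
    p ^ V ∣ (Matrix.of fun i j => (∑ m ∈ range (Z + 1), c i m * B m j) + p ^ M * G i j).det) ∧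
  (∀ (R : Type) [CommRing R] (p u : R), p ∣ u - 1 → ∀ k m : ℕ, p ^ (m - k) ∣ nc u k m) ∧
  (∀ (R : Type) [CommRing R] (u : R) (k z Z : ℕ), z ≤ Z →
    (Nat.choose z k : R) * u ^ z = ∑ m ∈ range (Z + 1), nc u k m * (Nat.choose z m : R))

/-- **ZER**: zero estimate and existence of a nonzero maximal minor, over a field of characteristic
zero; points `z = r + t ℓ`. -/
def Stmt_Zer : Prop :=
  ∀ (F : Type) [Field F] [CharZero F] (X Y : F) (ℓ K L R S : ℕ), X ≠ 0 → Y ≠ 0 →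
    (∀ i j : ℕ, i < j → j < L → Y ^ i ≠ Y ^ j) → 1 ≤ ℓ → R ≤ ℓ → K * L ≤ R * S → 1 ≤ K → 1 ≤ L →
    ∃ g : Fin K × Fin L → Fin R × Fin (S + L),
      (Matrix.of fun (i j : Fin K × Fin L) =>
        (Nat.choose (((g j).1 : ℕ) + ((g j).2 : ℕ) * ℓ) i.1 : F) *
          (X ^ ((g j).1 : ℕ) * Y ^ ((g j).2 : ℕ)) ^ (i.2 : ℕ)).det ≠ 0

/-- **NRM**: Liouville inequality. -/
def Stmt_Nrm : Prop :=
  ∀ (K : Type) [Field K] [NumberField K] (P : Ideal (𝓞 K)) (V : ℕ) (x : 𝓞 K) (h : ℝ),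
    P.IsPrime → P ≠ ⊥ → x ≠ 0 → x ∈ P ^ V → HB K x h →
    V * Real.log (Ideal.absNorm P) ≤ Module.finrank ℚ K * h

/-- **COR**: the main determinant inequality (`x₁/x₂ ≡ (y₂/y₁)^ℓ` modulo `P^M`). -/
def Stmt_Cor : Prop :=
  ∀ (K : Type) [Field K] [NumberField K] (P : Ideal (𝓞 K)) (x₁ x₂ y₁ y₂ : 𝓞 K)
    (ℓ K' L R S Z M : ℕ) (A B C : ℝ),
    P.IsPrime → P ≠ ⊥ → x₁ ∉ P → x₂ ∉ P → y₁ ∉ P → y₂ ∉ P → y₁ - y₂ ∈ P →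
    (∀ i j : ℕ, i < j → j < L → x₁ ^ i * x₂ ^ j ≠ x₁ ^ j * x₂ ^ i) →
    x₁ * y₁ ^ ℓ - x₂ * y₂ ^ ℓ ∈ P ^ M →
    0 ≤ A → 0 ≤ B → HB K y₁ A → HB K y₂ A → HB K x₁ B → HB K x₂ B →
    1 ≤ ℓ → R ≤ ℓ → K' * L ≤ R * S → 1 ≤ K' → 1 ≤ L → K' * L ≤ M → R + (S + L) * ℓ ≤ Z →
    (∀ k < K', ∀ z ≤ Z, (Nat.choose z k : ℝ) ≤ Real.exp C) → 0 ≤ C →
    (K' * K' * ∑ l ∈ range L, l : ℕ) * Real.log (Ideal.absNorm P) ≤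
      Module.finrank ℚ K * (Real.log ((K' * L).factorial) + K' * L * C +
        (K' * ∑ l ∈ range L, l : ℕ) * (R * A + (S + L) * B))

/-- **TLK**: two logarithms over a number field, nondegenerate case. -/
def Stmt_Tlk : Prop :=
  ∀ (K : Type) [Field K] [NumberField K] (P : Ideal (𝓞 K)) (x₁ x₂ y₁ y₂ : 𝓞 K)
    (ℓ M : ℕ) (A B D : ℝ),
    P.IsPrime → P ≠ ⊥ → x₁ ∉ P → x₂ ∉ P → y₁ ∉ P → y₂ ∉ P → y₁ - y₂ ∈ P →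
    (∀ i j : ℕ, i < j → x₁ ^ i * x₂ ^ j ≠ x₁ ^ j * x₂ ^ i) →
    x₁ * y₁ ^ ℓ - x₂ * y₂ ^ ℓ ∈ P ^ M →
    1 ≤ D → (Module.finrank ℚ K : ℝ) ≤ D →
    1 ≤ A → 1 ≤ B → HB K y₁ A → HB K y₂ A → HB K x₁ B → HB K x₂ B →
    6200 * D ^ 2 * B * (1 + Real.log ℓ) ≤ ℓ →
    (M : ℝ) ≤ 4 * 10 ^ 7 * D ^ 4 * A * B * (1 + Real.log ℓ) ^ 2

/-- **TLG**: two logarithms over a number field, general case. -/
def Stmt_Tlg : Prop :=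
  ∀ (K : Type) [Field K] [NumberField K] (P : Ideal (𝓞 K)) (x₁ x₂ y₁ y₂ : 𝓞 K)
    (r M : ℕ) (A B D Q : ℝ),
    P.IsPrime → P ≠ ⊥ → x₁ ∉ P → x₂ ∉ P → y₁ ∉ P → y₂ ∉ P →
    x₁ * y₁ ^ r ≠ x₂ * y₂ ^ r →
    x₁ * y₁ ^ r - x₂ * y₂ ^ r ∈ P ^ M →
    1 ≤ D → (Module.finrank ℚ K : ℝ) ≤ D → (Ideal.absNorm P : ℝ) ≤ Q →
    1 ≤ A → 1 ≤ B → HB K y₁ A → HB K y₂ A → HB K x₁ B → HB K x₂ B →
    10 ^ 4 * D ^ 2 * Q * (A + B) * (1 + Real.log r) ≤ r →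
    (M : ℝ) ≤ 10 ^ 8 * D ^ 4 * Q ^ 2 * A * (A + B) * (1 + Real.log r) ^ 2

/-! ### Geometry of numbers -/

/-- **MIN**: Minkowski's theorem in an ideal, with prescribed sizes. -/
def Stmt_Min : Prop :=
  ∀ (K : Type) [Field K] [NumberField K] (I : Ideal (𝓞 K)) (y : InfinitePlace K → ℝ) (B₀ : ℝ),
    I ≠ ⊥ → Real.log 4 + Real.log |(discr K : ℝ)| ≤ B₀ →
    ∑ v, (v.mult : ℝ) * y v = Real.log (Ideal.absNorm I) →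
    ∃ x : 𝓞 K, x ∈ I ∧ x ≠ 0 ∧
      ∀ v : InfinitePlace K, |Real.log (v (x : K)) - y v| ≤ Module.finrank ℚ K * B₀

/-- **CNT**: number of ideals of bounded norm. -/
def Stmt_Cnt : Prop :=
  ∀ (K : Type) [Field K] [NumberField K] (m : ℕ), 1 ≤ m →
    {I : Ideal (𝓞 K) | I ≠ ⊥ ∧ Ideal.absNorm I ≤ m}.Finite ∧
    {I : Ideal (𝓞 K) | I ≠ ⊥ ∧ Ideal.absNorm I ≤ m}.ncard ≤ m ^ (Module.finrank ℚ K ^ 2 + 1)

/-- **PIG**: the pigeonhole lemma.  `𝔠` an ideal, `y` the sizes of a (fictitious) generator of `𝔠^k`: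
for every `T` there are `1 ≤ u ≤ U`, `s` and `η` with `(η) = 𝔠 ^ s`, `s ≈ u k / T` and sizes
`≈ (u / T) y`. -/
def Stmt_Pig : Prop :=
  ∃ C : ℝ, 1 ≤ C ∧ ∀ (K : Type) [Field K] [NumberField K] (𝔠 : Ideal (𝓞 K)) (k T : ℕ)
    (y : InfinitePlace K → ℝ) (δ H : ℝ),
    𝔠 ≠ ⊥ → 1 ≤ T → 0 < δ → δ ≤ 1 → (Module.finrank ℚ K : ℝ) ≤ H → 2 ≤ H →
    Real.log |(discr K : ℝ)| ≤ H → Real.log (Ideal.absNorm 𝔠) ≤ H →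
    ∑ v, (v.mult : ℝ) * y v = k * Real.log (Ideal.absNorm 𝔠) →
    ∃ (u s : ℕ) (η : 𝓞 K), 1 ≤ u ∧ (u : ℝ) ≤ Real.exp (C * H ^ 6) * (1 / δ) ^ (2 * H) ∧
      η ≠ 0 ∧ Ideal.span {η} = 𝔠 ^ s ∧ |(s : ℝ) - u * k / T| ≤ δ ∧
      ∀ v : InfinitePlace K, |Real.log (v (η : K)) - u / T * y v| ≤ δ

/-! ### Ideals and the field -/

/-- **IDL**: `α β = c ^ k`, `λ ∈ (α, β)`: then `(λ α) = 𝔠 ^ k 𝔣` with `𝔠 ∣ c`, `𝔣 ∣ λ²`. -/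
def Stmt_Idl : Prop :=
  ∀ (R : Type) [CommRing R] [IsDedekindDomain R] (α β c lam : R) (k : ℕ), 1 ≤ k → c ≠ 0 →
    lam ≠ 0 → Ideal.span {α * β} = Ideal.span {c ^ k} → lam ∈ Ideal.span {α, β} →
    ∃ 𝔠 𝔣 : Ideal R, Ideal.span {lam * α} = 𝔠 ^ k * 𝔣 ∧ 𝔠 ∣ Ideal.span {c} ∧
      𝔣 ∣ Ideal.span {lam ^ 2}

/-- **FLD**: the field `ℚ(b^(r/l)) ⊂ ℝ`. -/
def Stmt_Fld : Prop :=
  ∀ (l b r : ℕ), 1 ≤ l → 2 ≤ b → r < l →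
    ∃ (K : Type) (_ : Field K) (_ : NumberField K) (θ : 𝓞 K) (σ : K →+* ℝ),
      θ ^ l = (b : 𝓞 K) ^ r ∧ 0 < σ (θ : K) ∧ Module.finrank ℚ K ≤ l ∧
      Real.log |(discr K : ℝ)| ≤ l ^ 2 * (1 + Real.log b)

/-- **DEC**: decomposition of `α = a - θ`, `θ^l = b^n`, `a^l = b^n ± c^k`. -/
def Stmt_Dec : Prop :=
  ∃ C : ℝ, 1 ≤ C ∧ ∀ (K : Type) [Field K] [NumberField K] (l a b c n k : ℕ) (e : ℤ) (θ : 𝓞 K)
    (U δ : ℝ), l.Prime → 2 ≤ b → 2 ≤ c → Nat.Coprime b c → 1 ≤ a → 1 ≤ n → 1 ≤ k →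
    e = 1 ∨ e = -1 → (a : ℤ) ^ l = (b : ℤ) ^ n + e * (c : ℤ) ^ k → c ^ k ≤ b ^ n →
    θ ^ l = (b : 𝓞 K) ^ n → Module.finrank ℚ K ≤ l → Real.log |(discr K : ℝ)| ≤ l ^ 2 * (1 + Real.log b) →
    2 ≤ U → (l : ℝ) ≤ U → Real.log b ≤ U → Real.log c ≤ U → 0 < δ → δ ≤ 1 →
    ∃ (u s r E e₀ : ℕ) (κ η lam : 𝓞 K), 1 ≤ u ∧ (u : ℝ) ≤ Real.exp (U ^ C) * (1 / δ) ^ (U ^ C) ∧
      r = n / u ∧ (lam = 1 ∨ lam = l) ∧ IsCoprime lam (b : 𝓞 K) ∧ κ ≠ 0 ∧ η ≠ 0 ∧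
      lam * ((a : 𝓞 K) - θ) * (c : 𝓞 K) ^ E = κ * η ^ r ∧ k + E * l = e₀ + s * r ∧
      ((s : ℝ) * Real.log c ≤ u * U ^ C) ∧ HB K (η ^ l) (u * U ^ C) ∧
      HB K (κ ^ l) ((u + r * δ) * U ^ C) ∧ HB K (lam ^ l * (c : 𝓞 K) ^ e₀) ((u + r * δ) * U ^ C)

/-- **W**: the exponents are bounded. -/
def Stmt_W : Prop :=
  ∃ C : ℝ, 1 ≤ C ∧ ∀ (l a b c n k : ℕ) (U : ℝ), l.Prime → 2 ≤ b → 2 ≤ c → Nat.Coprime b c →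
    1 ≤ a → 1 ≤ n → 1 ≤ k →
    (a ^ l + b ^ n = c ^ k ∨ b ^ n + c ^ k = a ^ l ∨ c ^ k + a ^ l = b ^ n) →
    2 ≤ U → (l : ℝ) ≤ U → Real.log b ≤ U → Real.log c ≤ U →
    Real.log n ≤ U ^ C ∧ Real.log k ≤ U ^ C

end Pool.Agent.Work.MP_2738db_nt_A
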